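import Pool.Agent.Hp8CR.CRMain

set_option autoImplicit false

/-!
# Vaught's conjecture for commutative rings

Let `T` be a first-order theory in the language with addition and multiplication such that each
model of `T` with universe `ℕ` is elementarily equivalent to the product of a reduced and a
Noetherian commutative ring (one of them may be the zero ring: so this includes the theories of
reduced commutative rings and the theories of Noetherian commutative rings). Then either there are
perfectly many countable models or there are countably many, and in the latter case each model is
the product of a ring with `x ^ q = x` and an Artinian ring whose residue fields are finite or
algebraically closed.

The proof: if there are not perfectly many models, then every `a ^ n` is a multiple of `a ^ (n+1)`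
for some `n`, and there are no large families of orthogonal idempotents at which the residue fields
are large (otherwise there are continuum many types). This gives the decomposition, and the
infinite residue fields are algebraically closed (a form of Wagner's theorem on small fields, proved
for residue fields of the ultrapower, by the Cantor-Bendixson rank of types). The Artinian factors
fall into countably many isomorphism types, by the coefficient rings of Cohen and Witt and the
theorem of Steinitz, and the reduced factors are handled by the theorem on rings with `x ^ m = x` of
the results on Boolean algebras with a measure.
-/

namespace Pool.Agent.Results.MP_5df2c5_lc.CommutativeRings

open FirstOrder FirstOrder.Language Pool.Agent.N641.VB Pool.Agent.Hp8CR.Rings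

/-- Vaught's conjecture, perfect-set form, for the theories `T` such that each model of `T` with
universe `ℕ` is elementarily equivalent to the product of a reduced and a Noetherian commutative
ring, and a decomposition of the models if there are countably many. -/
theorem result (T : LR.Theory)
    (h : ∀ S : LR.Structure ℕ, @Theory.Model LR ℕ S T →
      ∃ (A B : Type) (RA : CommRing A) (RB : CommRing B), IsReduced A ∧ IsNoetherianRing B ∧
        ElemEquiv S (@Prod.instCommRing A B RA RB)) :
    PerfectlyMany LR T ∨ (CountablyMany LR T ∧
      ∀ S : LR.Structure ℕ, @Theory.Model LR ℕ S T →
        ∃ R : CommRing ℕ, S = strR R ∧ Decomposes R) :=
  main T h

end Pool.Agent.Results.MP_5df2c5_lc.CommutativeRings
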