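import Pool.Agent.Hp8VC.LFMain

set_option autoImplicit false

/-!
Vaught's conjecture, in the perfect-set form, for every theory in a countable relational language
each of whose models is elementarily equivalent to a locally finite structure; more generally, for
theories such that the bounded parts of the models with the same first-order theory fall into
countably many isomorphism types.
-/

namespace Pool.Agent.Results.MP_5df2c5_lc.LocallyFiniteStructures

open FirstOrder FirstOrder.Language Pool.Agent.Hp8VC.LFS

/-- Vaught's conjecture for each theory `T` in a countable relational language such that for each
model `S₀` of `T` one of the following holds: the bounded parts of the structures that are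
elementarily equivalent to `S₀` fall into countably many isomorphism types; `S₀` is elementarily
equivalent to a structure in which every bounded set definable without parameters is finite; `S₀` is
elementarily equivalent to a locally finite structure. -/
theorem result (L : FirstOrder.Language.{0, 0}) [L.IsRelational] [Countable L.Symbols]
    (T : L.Theory)
    (h : ∀ S₀ : L.Structure ℕ, @Theory.Model L ℕ S₀ T →
      (∃ P : ℕ → L.Structure ℕ, ∀ S : L.Structure ℕ, @ElementarilyEquivalent L ℕ ℕ S S₀ →
        ∃ j, @SameBoundedPart L ℕ ℕ S (P j)) ∨
      (∃ (N : Type) (SN : L.Structure N), @ElementarilyEquivalent L N ℕ SN S₀ ∧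
        ∀ φ : L.Formula Unit, Bounded L (Def N φ) → (Def N φ).Finite) ∨
      (∃ (N : Type) (SN : L.Structure N), @ElementarilyEquivalent L N ℕ SN S₀ ∧
        LocallyFinite L N)) : Dichotomy T :=
  main L T h

end Pool.Agent.Results.MP_5df2c5_lc.LocallyFiniteStructures
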