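import Pool.Agent.H12A.OM.Cor

set_option autoImplicit false

/-!
# Vaught's conjecture for ordered sums with repeated summands

An ordered sum (lexicographic sum) of structures has one binary relation `r` that orders the points
of different summands as their indices; all other relations, and `r` on one summand, are those of
the summands. There is no restriction on the structures that are summed.

(1) Vaught's conjecture, with a perfect set, holds for each Borel class `K` of countable structures
such that every point of every member of `K` lies in a summand of this member which is isomorphic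
to infinitely many summands of one member of `K`.

(2) It holds for each first-order theory `T` such that every point of every countable model of `T`
lies in a summand of this model such that each sentence true in the summand is true in arbitrarily
many summands of one model of `T`.

(3) It holds for each first-order theory `T` such that for every countable model `S` of `T` some
model of `T` is an ordered sum with two different summands elementarily equivalent to `S`.

(4) It holds for the complete theory of each structure `P` which is an ordered sum with two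
different summands elementarily equivalent to `P`, and for the complete theory of each ordered sum
`P` in which a relation symbol names the partition into summands and each sentence true in one
summand is true in infinitely many.

(5) In particular it holds for the complete theory of the ordered multiple `S·D` of an arbitrary
structure `S` and each linear order `D ≅ D + D`, and for each infinite linear order `D` if the
partition into the copies of `S` is named.
-/

namespace Pool.Agent.Results.MP_5df2c5_lc.RepeatedSummands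

open FirstOrder FirstOrder.Language
open Pool.Agent.H12A

/-! ### Borel classes -/

/-- Relational structures on `ℕ` with relations of arities `a 0, a 1, ...`. -/
abbrev Str (a : ℕ → ℕ) : Type := (i : ℕ) → (Fin (a i) → ℕ) → Bool

/-- Isomorphism of structures. -/
def Iso {a : ℕ → ℕ} (x y : Str a) : Prop :=
  ∃ σ : Equiv.Perm ℕ, ∀ (i : ℕ) (v : Fin (a i) → ℕ), y i (⇑σ ∘ v) = x i v

/-- The pair `(u, v)`. -/
def pair {n : ℕ} (u v : ℕ) : Fin n → ℕ := fun j => if j.val = 0 then u else v

/-- `x` is the ordered sum, with respect to the relation number `ε`, of the fibres of `π`. -/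
structure IsOrderedSum {a : ℕ → ℕ} (ε : ℕ) (x : Str a) {I : Type} [LinearOrder I]
    (π : ℕ → I) : Prop where
  order : ∀ u v, π u < π v → x ε (pair u v) = true ∧ x ε (pair v u) = false
  inside : ∀ i, i ≠ ε → ∀ t, x i t = true → ∀ j k, π (t j) = π (t k)

/-- The substructure of `x` on the fibre of `ρ` over `j` is isomorphic to the substructure of `y` on
the fibre of `π` over `q`. -/
def SummandIso {a : ℕ → ℕ} (x : Str a) {J : Type} (ρ : ℕ → J) (j : J) (y : Str a) {I : Type}
    (π : ℕ → I) (q : I) : Prop :=
  ∃ e : ℕ → ℕ, Set.BijOn e {z | ρ z = j} {z | π z = q} ∧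
    ∀ (i : ℕ) (v : Fin (a i) → ℕ), (∀ k, ρ (v k) = j) → y i (e ∘ v) = x i v

/-! ### First-order theories -/

/-- Vaught's conjecture for `T`, with a perfect set: the countably infinite models of `T` have
countably many isomorphism types, or there is a continuous family of pairwise non-isomorphic models
with universe `ℕ` indexed by the Cantor space. -/
def VaughtHolds {L : FirstOrder.Language.{0, 0}} (T : L.Theory) : Prop :=
  (∃ C : Set (FirstOrder.Language.Theory.ModelType.{0, 0, 0} T), C.Countable ∧
    ∀ M : FirstOrder.Language.Theory.ModelType.{0, 0, 0} T,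
      Countable M → Infinite M → ∃ N ∈ C, Nonempty (FirstOrder.Language.Equiv L M N)) ∨
  (∃ F : (ℕ → Bool) → L.Structure ℕ, (∀ x, @Theory.Model L ℕ (F x) T) ∧
    (∀ (n : ℕ) (R : L.Relations n) (t : Fin n → ℕ), IsClopen {x | (F x).RelMap R t}) ∧
    ∀ x y, Nonempty (@FirstOrder.Language.Equiv L ℕ ℕ (F x) (F y)) → x = y)

/-- The complete theory of `S`. -/
def Th {L : FirstOrder.Language.{0, 0}} {M : Type} (S : L.Structure M) : L.Theory :=
  {φ | @Sentence.Realize L M S φ}

/-- Elementary equivalence. -/
def ElemEquiv {L : FirstOrder.Language.{0, 0}} {M N : Type} (S : L.Structure M)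
    (S' : L.Structure N) : Prop :=
  ∀ φ : L.Sentence, @Sentence.Realize L M S φ ↔ @Sentence.Realize L N S' φ

/-- `P` is the ordered sum, with respect to `r`, of the fibres of `π`. -/
structure IsSum {L : FirstOrder.Language.{0, 0}} (r : L.Relations 2) {N I : Type} [LinearOrder I]
    (P : L.Structure N) (π : N → I) : Prop where
  order : ∀ x y, π x < π y → P.RelMap r ![x, y] ∧ ¬ P.RelMap r ![y, x]
  inside : ∀ (n : ℕ) (R : L.Relations n), (⟨n, R⟩ : Σ n, L.Relations n) ≠ ⟨2, r⟩ →
    ∀ t, P.RelMap R t → ∀ j k, π (t j) = π (t k)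

/-- The summand over `i`: the substructure of `P` on the fibre of `π` over `i`. -/
@[reducible] def summand {L : FirstOrder.Language.{0, 0}} [L.IsRelational] {N I : Type}
    (P : L.Structure N) (π : N → I) (i : I) : L.Structure {z : N // π z = i} where
  funMap f := isEmptyElim f
  RelMap R t := P.RelMap R (fun k => (t k).1)

/-- The ordered multiple `S·D`: the sum of copies of `S`, one for each element of `D`, where `r`
orders the points of different copies as `D`. -/
@[reducible] def multiple {L : FirstOrder.Language.{0, 0}} [L.IsRelational] (r : L.Relations 2)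
    {M : Type} (S : L.Structure M) (D : Type) [LinearOrder D] : L.Structure (D × M) where
  funMap f := isEmptyElim f
  RelMap {n} R t := ((∀ j k, (t j).1 = (t k).1) ∧ S.RelMap R (fun k => (t k).2)) ∨
    ((⟨n, R⟩ : Σ n, L.Relations n) = ⟨2, r⟩ ∧ ∀ j k, j < k → (t j).1 < (t k).1)

theorem vaught_of_dich {L : FirstOrder.Language.{0, 0}} [L.IsRelational] {T : L.Theory}
    (h : (∃ f : ℕ → L.Structure ℕ, ∀ S : L.Structure ℕ, @Theory.Model L ℕ S T →
      ∃ n, H623R2.VE.RIso S (f n)) ∨
    (∃ F : (ℕ → Bool) → L.Structure ℕ, (∀ x, @Theory.Model L ℕ (F x) T) ∧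
      (∀ (n : ℕ) (R : L.Relations n) (t : Fin n → ℕ), IsClopen {x | (F x).RelMap R t}) ∧
      ∀ x y, H623R2.VE.RIso (F x) (F y) → x = y)) : VaughtHolds T := by
  rcases h with ⟨f, hf⟩ | ⟨F, h1, h2, h3⟩
  · left
    refine ⟨{N | ∃ n, ∃ h : @Theory.Model L ℕ (f n) T,
      N = @Theory.ModelType.of L T ℕ (f n) h inferInstance}, ?_, ?_⟩
    · have hsub : {N | ∃ n, ∃ h : @Theory.Model L ℕ (f n) T,
          N = @Theory.ModelType.of L T ℕ (f n) h inferInstance} ⊆
          ⋃ n, {N | ∃ h : @Theory.Model L ℕ (f n) T,
            N = @Theory.ModelType.of L T ℕ (f n) h inferInstance} := by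
        rintro N ⟨n, h, e⟩
        exact Set.mem_iUnion.2 ⟨n, h, e⟩
      refine (Set.countable_iUnion fun n => Set.Subsingleton.countable ?_).mono hsub
      rintro N ⟨h, e⟩ N' ⟨h', e'⟩
      rw [e, e']
    · intro M hMc hMi
      obtain ⟨e⟩ : Nonempty (M ≃ ℕ) := nonempty_equiv_of_countable
      let S : L.Structure ℕ :=
        { funMap := fun f => isEmptyElim f
          RelMap := fun R t => M.struc.RelMap R (fun k => e.symm (t k)) }
      have hS : H623R2.VE.RIso M.struc S := by
        refine ⟨e, fun R t => ?_⟩
        show _ ↔ M.struc.RelMap R (fun k => e.symm (e (t k)))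
        simp only [Equiv.symm_apply_apply]
      have hSm : @Theory.Model L ℕ S T := hS.model M.is_model
      obtain ⟨n, h⟩ := hf S hSm
      have hm : @Theory.Model L ℕ (f n) T := h.model hSm
      exact ⟨_, ⟨n, hm, rfl⟩, H623R2.VE.RIso.iff.1 (hS.trans h)⟩
  · exact Or.inr ⟨F, h1, h2, fun x y h => h3 x y (H623R2.VE.RIso.iff.2 h)⟩

theorem isSum_iff {L : FirstOrder.Language.{0, 0}} [L.IsRelational] {r : L.Relations 2}
    {N I : Type} [LinearOrder I] {P : L.Structure N} {π : N → I} :
    IsSum r P π ↔ OM.FSum r P π :=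
  ⟨fun h => ⟨h.order, h.inside⟩, fun h => ⟨h.lt, h.loc⟩⟩

/-- Vaught's conjecture for ordered sums with repeated summands. -/
theorem result :
    -- (1) Borel classes
    (∀ (a : ℕ → ℕ) (ε : ℕ), a ε = 2 → ∀ K : Set (Str a), MeasurableSet K →
      (∀ x y, Iso x y → (x ∈ K ↔ y ∈ K)) →
      (∀ x ∈ K, ∀ u : ℕ, ∃ (J : Type) (_ : LinearOrder J) (ρ : ℕ → J), IsOrderedSum ε x ρ ∧
        ∃ y ∈ K, ∃ (I : Type) (_ : LinearOrder I) (π : ℕ → I), IsOrderedSum ε y π ∧
          {q | SummandIso x ρ (ρ u) y π q}.Infinite) →
      (∃ f : ℕ → Str a, ∀ x ∈ K, ∃ n, Iso (f n) x) ∨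
      (∃ g : (ℕ → Bool) → Str a, Continuous g ∧ (∀ c, g c ∈ K) ∧
        ∀ c d, Iso (g c) (g d) → c = d)) ∧
    (∀ (L : FirstOrder.Language.{0, 0}) [L.IsRelational], Countable L.Symbols →
      ∀ r : L.Relations 2,
      -- (2) theories with a local condition
      (∀ T : L.Theory,
        (∀ S : L.Structure ℕ, @Theory.Model L ℕ S T → ∀ x : ℕ,
          ∃ (J : Type) (_ : LinearOrder J) (ρ : ℕ → J), IsSum r S ρ ∧
            ∀ θ : L.Sentence, @Sentence.Realize L _ (summand S ρ (ρ x)) θ → ∀ n : ℕ,
              ∃ (N I : Type) (_ : LinearOrder I) (P : L.Structure N) (π : N → I),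
                @Theory.Model L N P T ∧ IsSum r P π ∧ ∃ s : Finset I, n ≤ s.card ∧
                  ∀ i ∈ s, @Sentence.Realize L _ (summand P π i) θ) →
        VaughtHolds T) ∧
      -- (3) theories with a global condition
      (∀ T : L.Theory,
        (∀ S : L.Structure ℕ, @Theory.Model L ℕ S T →
          ∃ (N I : Type) (_ : LinearOrder I) (P : L.Structure N) (π : N → I),
            @Theory.Model L N P T ∧ IsSum r P π ∧ ∃ p q, p ≠ q ∧
              ElemEquiv S (summand P π p) ∧ ElemEquiv S (summand P π q)) →
        VaughtHolds T) ∧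
      -- (4) complete theories
      (∀ (N I : Type) [LinearOrder I] (P : L.Structure N) (π : N → I), IsSum r P π →
        ((∃ p q, p ≠ q ∧ ElemEquiv P (summand P π p) ∧ ElemEquiv P (summand P π q)) →
          VaughtHolds (Th P)) ∧
        (∀ E : L.Relations 2, (∀ x y, P.RelMap E ![x, y] ↔ π x = π y) →
          (∀ (θ : L.Sentence) (x : N), @Sentence.Realize L _ (summand P π (π x)) θ →
            {i | @Sentence.Realize L _ (summand P π i) θ}.Infinite) →
          VaughtHolds (Th P))) ∧
      -- (5) multiples
      (∀ (M : Type) (S : L.Structure M) (D : Type) [LinearOrder D],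
        (Nonempty (D ≃o (D ⊕ₗ D)) → VaughtHolds (Th (multiple r S D))) ∧
        (Infinite D → ∀ E : L.Relations 2, E ≠ r → (∀ x y, S.RelMap E ![x, y]) →
          VaughtHolds (Th (multiple r S D))))) := by
  refine ⟨fun a ε hε K hK hinv hm => ?_, fun L _ hL r => ?_⟩
  · refine OM.borel hε K hK hinv fun x hx u => ?_
    obtain ⟨J, lo, ρ, h1, y, hy, I, lo', π, h2, h3⟩ := hm x hx u
    exact ⟨J, lo, ρ, ⟨h1.order, h1.inside⟩, y, hy, I, lo', π, ⟨h2.order, h2.inside⟩, h3⟩
  have h2 : ∀ T : L.Theory, OM.Loc r T → VaughtHolds T := fun T hT =>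
    vaught_of_dich (OM.fo_dich r T hT)
  refine ⟨fun T hT => h2 T fun S hS x => ?_, fun T hT => h2 T (OM.loc_of_dbl fun S hS => ?_),
    fun N I _ P π hP => ⟨?_, fun E hE hinf => ?_⟩, fun M S D _ => ⟨?_, fun hD E hE hS => ?_⟩⟩
  · obtain ⟨J, lo, ρ, h3, h4⟩ := hT S hS x
    refine ⟨J, lo, ρ, isSum_iff.1 h3, fun θ hθ n => ?_⟩
    obtain ⟨N, I, lo', P, π, h5, h6, h7⟩ := h4 θ hθ n
    exact ⟨N, I, lo', P, π, h5, isSum_iff.1 h6, h7⟩
  · obtain ⟨N, I, lo', P, π, h5, h6, h7⟩ := hT S hS
    exact ⟨N, I, lo', P, π, h5, isSum_iff.1 h6, h7⟩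
  · rintro ⟨p, q, hpq, hp, hq⟩
    exact h2 _ (OM.loc_of_dbl (OM.dbl_of_two (isSum_iff.1 hP) hpq hp hq))
  · exact h2 _ (OM.loc_of_named (isSum_iff.1 hP)
      (fun x z => (hE x z).trans ⟨Eq.symm, Eq.symm⟩) hinf)
  · rintro ⟨e⟩
    exact h2 _ (OM.loc_of_dbl (OM.dbl_multi D e S))
  · exact h2 _ (OM.loc_multi hE D S hS)

end Pool.Agent.Results.MP_5df2c5_lc.RepeatedSummands
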