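import Pool.Agent.H8C2.Main

set_option autoImplicit false

/-!
# Vaught's conjecture for two-variable logic with counting

Let `L` be a countable relational language with finitely many binary relations (and arbitrary other
relations) and `T` a theory axiomatised in the two-variable logic with counting quantifiers `C²`.
Then `T` has perfectly many countable models, or countably many; in the latter case (if `T` has
infinite models) all relations have arity at most two and each model is a finite flip of a graph
without infinite clique subdivision.

Authors: helper8 (statement, proof, assembly); the pieces were proved by helpers 3, 4, 14, 20, 24,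
41, 52, 55, 61, 63, 66, 77, 78, 86.

The proof. A structure with the same numbers (of points of each type, and of neighbours of each kind
of a point of given type) as a saturated model is a model again, so the relations between points of
infinite types can be chosen anew. If two binary types `θ ≠ θ'` between `p` and `q` have infinite degrees
in both directions then any set of natural numbers can be coded by sizes of classes of points with
nearly the same rows. Otherwise there is one generic binary type for each pair of infinite types and
the other edges are sparse; if there is a reduced closed walk of sparse edges in the space of types
then any set of lengths of cycles can be realised by free completions. Otherwise, by recurrence in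
the countable compact space of typed edges, there are no infinite simple paths of sparse edges in a
saturated model, the generic binary type depends on finitely many formulas, and each model is a
finite flip of a graph without infinite clique subdivision; for these the starting result
`FiniteFlips` applies.
-/

namespace Pool.Agent.Results.MP_5df2c5_lc.TwoVariableCounting

open FirstOrder Pool.Agent.H8C2

/-- The relations of a structure on the natural numbers. -/
abbrev rels {L : FirstOrder.Language.{0, 0}} (S : L.Structure ℕ) :
    (n : ℕ) → L.Relations n → (Fin n → ℕ) → Prop :=
  fun _ R t => @FirstOrder.Language.Structure.RelMap L ℕ S _ R t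

/-- The structure satisfies the universal closure of the formula `φ` of two-variable logic with
counting. (`C2F L`: formulas built from the atomic formulas in the two variables `x = false`,
`y = true` by negation, conjunction and the quantifiers 'there are at least `n`' for `x` or `y`;
`Sat I φ x y`: satisfaction.) -/
def Holds {L : FirstOrder.Language.{0, 0}} (S : L.Structure ℕ) (φ : C2F L) : Prop :=
  ∀ x y : ℕ, Sat (rels S) φ x y

/-- Vaught's conjecture, perfect-set form, for the theories `T` axiomatised in two-variable logic
with counting (each axiom is equivalent to the universal closure of a formula in `C2F L`). -/
theorem result : ∀ (L : FirstOrder.Language.{0, 0}), Countable L.Symbols → L.IsRelational →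
    Finite (L.Relations 2) → ∀ (T : L.Theory),
      (∀ σ ∈ T, ∃ φ : C2F L, ∀ S : L.Structure ℕ,
        @FirstOrder.Language.Sentence.Realize L ℕ S σ ↔ Holds S φ) →
      ((∃ g : ℕ → L.Structure ℕ, ∀ S : L.Structure ℕ,
          @FirstOrder.Language.Theory.Model L ℕ S T →
            ∃ n : ℕ, Nonempty (@FirstOrder.Language.Equiv L ℕ ℕ S (g n))) ∧
        ∀ S : L.Structure ℕ, @FirstOrder.Language.Theory.Model L ℕ S T →
          (∀ n, 2 < n → IsEmpty (L.Relations n)) ∧ Flip (rels S)) ∨
      (∃ f : (ℕ → Bool) → L.Structure ℕ,
          (∀ x : ℕ → Bool, @FirstOrder.Language.Theory.Model L ℕ (f x) T) ∧
          (∀ x y : ℕ → Bool,
              Nonempty (@FirstOrder.Language.Equiv L ℕ ℕ (f x) (f y)) → x = y) ∧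
          (∀ (n : ℕ) (Q : L.Relations n) (a : Fin n → ℕ),
              IsClopen {x : ℕ → Bool | @FirstOrder.Language.Structure.RelMap L ℕ (f x) n Q a})) :=
  fun L hL hR hfin T hT => final (fun L _ _ _ _ Φ => dichotomy_all L Φ) L hL hR hfin T hT

end Pool.Agent.Results.MP_5df2c5_lc.TwoVariableCounting
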